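import Pool.Agent.U901.LLD.Base

/-!
# Project LL: the lattice of the elements of `K` which are small at the finite places
-/

set_option autoImplicit false

open scoped WithZero Matrix
open Matrix hiding vec

namespace Pool.Agent.U901.LLD

open Pool.Agent.U283.LL

section glob

variable {K : Type} [Field K] {P : Type} {L : P → Type} [∀ p, Field (L p)]
  (val : ∀ p, Valuation (L p) ℤᵐ⁰) (emb : ∀ p, K →+* L p) (inf : P)

/-- The elements of `K` which are small at the places different from `inf`. -/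
def Qn (n : P →₀ ℕ) : AddSubgroup K where
  carrier := {r | ∀ p, p ≠ inf → val p (emb p r) ≤ WithZero.exp (-(n p : ℤ))}
  zero_mem' := by intro p _; simp
  add_mem' := by
    intro a b ha hb p hp
    rw [map_add]
    exact (val p).map_add_le (ha p hp) (hb p hp)
  neg_mem' := by
    intro a ha p hp
    rw [map_neg, Valuation.map_neg]
    exact ha p hp

/-- The sum of the image of `Qn` and a ball. -/
def Hn (n : P →₀ ℕ) : AddSubgroup (L inf) where
  carrier := {z | ∃ r ∈ Qn val emb inf n, val inf (z - emb inf r) ≤ WithZero.exp (-(n inf : ℤ))}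
  zero_mem' := ⟨0, zero_mem _, by simp⟩
  add_mem' := by
    rintro a b ⟨r, hr, h1⟩ ⟨s, hs, h2⟩
    refine ⟨r + s, add_mem hr hs, ?_⟩
    have : a + b - emb inf (r + s) = (a - emb inf r) + (b - emb inf s) := by rw [map_add]; ring
    rw [this]
    exact (val inf).map_add_le h1 h2
  neg_mem' := by
    rintro a ⟨r, hr, h1⟩
    refine ⟨-r, neg_mem hr, ?_⟩
    have : -a - emb inf (-r) = -(a - emb inf r) := by rw [map_neg]; ring
    rw [this, Valuation.map_neg]
    exact h1

open scoped Classical in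
/-- The adele with the component `z` at `inf` and `0` elsewhere. -/
noncomputable def adInf (z : L inf) : Adele val := ⟨Pi.single inf z, by
  refine (Set.finite_singleton inf).subset ?_
  intro p hp
  by_contra hne
  apply hp
  rw [Pi.single_eq_of_ne (by simpa using hne)]
  simp⟩

theorem adInf_inf (z : L inf) : (adInf val inf z : ∀ p, L p) inf = z := by
  classical
  unfold adInf
  exact Pi.single_eq_same (M := fun p => L p) inf z

theorem adInf_ne {p : P} (h : p ≠ inf) (z : L inf) : (adInf val inf z : ∀ p, L p) p = 0 := by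
  classical
  unfold adInf
  exact Pi.single_eq_of_ne (M := fun p => L p) h z

variable {val emb inf}

/-- Every element of `L inf` is bounded modulo `Qn`. -/
theorem exists_near (hG : Good val emb inf) (n : P →₀ ℕ) : ∃ c : ℕ, ∀ z : L inf,
    ∃ r ∈ Qn val emb inf n, val inf (z - emb inf r) ≤ WithZero.exp (c : ℤ) := by
  obtain ⟨c, hc⟩ := hG.sa n
  refine ⟨c, fun z => ?_⟩
  obtain ⟨k, h1, h2⟩ := hc (adInf val inf z)
  rw [adInf_inf] at h2
  refine ⟨k, fun p hp => ?_, h2⟩
  have h3 := h1 p hp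
  rw [adInf_ne val inf hp, zero_sub, Valuation.map_neg] at h3
  exact h3

/-- Finitely many elements of `Qn` are bounded. -/
theorem finite_bounded (hG : Good val emb inf) (n : P →₀ ℕ) (M : ℕ) :
    {r : Qn val emb inf n | val inf (emb inf (r : K)) ≤ WithZero.exp (M : ℤ)}.Finite := by
  classical
  have h := hG.disc (Finsupp.single inf M)
  refine Set.Finite.of_injOn (f := fun r : Qn val emb inf n => (r : K)) ?_
    Subtype.val_injective.injOn h
  intro r hr p
  by_cases hp : p = inf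
  · subst hp
    simpa using hr
  · rw [Finsupp.single_eq_of_ne hp]
    refine (r.2 p hp).trans ?_
    simpa using exp_neg_le_one (n p)

/-- `L inf` modulo `Hn` is finite. -/
theorem finite_quot (hG : Good val emb inf) (n : P →₀ ℕ) :
    Finite (L inf ⧸ Hn val emb inf n) := by
  obtain ⟨c, hc⟩ := exists_near hG n
  obtain ⟨ϖ, hϖ⟩ := (hG.loc inf).unif
  obtain ⟨E, hE1, hE2⟩ := (hG.loc inf).reps (c + n inf)
  have hϖ0 : ϖ ≠ 0 := by
    rintro rfl
    rw [map_zero] at hϖ
    exact WithZero.exp_ne_zero hϖ.symm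
  have hpow : val inf (ϖ ^ c) = WithZero.exp (-(c : ℤ)) := by
    rw [map_pow, hϖ, ← WithZero.exp_nsmul]
    congr 1
    simp
  have hpow' : val inf ((ϖ ^ c)⁻¹) = WithZero.exp (c : ℤ) := by
    rw [map_inv₀, hpow, WithZero.exp_neg, inv_inv]
  refine Finite.of_surjective (fun e : E => (QuotientAddGroup.mk ((ϖ ^ c)⁻¹ * (e : L inf)) :
    L inf ⧸ Hn val emb inf n)) ?_
  intro q
  obtain ⟨z, rfl⟩ := QuotientAddGroup.mk_surjective q
  obtain ⟨r, hr, hz⟩ := hc z
  obtain ⟨e, ⟨he, hv⟩, -⟩ := hE2 (ϖ ^ c * (z - emb inf r)) (by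
    rw [map_mul, hpow]
    calc _ ≤ WithZero.exp (-(c : ℤ)) * WithZero.exp (c : ℤ) := mul_le_mul_right hz _
      _ = 1 := by rw [← WithZero.exp_add]; simp)
  refine ⟨⟨e, he⟩, ?_⟩
  rw [QuotientAddGroup.eq]
  refine ⟨r, hr, ?_⟩
  have h1 : -((ϖ ^ c)⁻¹ * e) + z - emb inf r = (ϖ ^ c)⁻¹ * (ϖ ^ c * (z - emb inf r) - e) := by
    have : ϖ ^ c ≠ 0 := pow_ne_zero _ hϖ0
    field_simp
    ring
  show val inf (-((ϖ ^ c)⁻¹ * e) + z - emb inf r) ≤ _
  rw [h1, map_mul, hpow']
  calc _ ≤ WithZero.exp (c : ℤ) * WithZero.exp (-((c + n inf : ℕ) : ℤ)) := mul_le_mul_right hv _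
    _ = _ := by
      rw [← WithZero.exp_add]
      congr 1
      push_cast
      ring

/-- The sum of a function over `Qn`. -/
noncomputable def GG (val : ∀ p, Valuation (L p) ℤᵐ⁰) (emb : ∀ p, K →+* L p) (inf : P)
    (n : P →₀ ℕ) (h : L inf → ℂ) (z : L inf) : ℂ :=
  ∑ᶠ r : Qn val emb inf n, h (z + emb inf (r : K))

theorem GG_add (n : P →₀ ℕ) {h : L inf → ℂ}
    (hinv : ∀ z w, val inf w ≤ WithZero.exp (-(n inf : ℤ)) → h (z + w) = h z)
    {z w : L inf} (hw : w ∈ Hn val emb inf n) : GG val emb inf n h (z + w) = GG val emb inf n h z := by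
  obtain ⟨r₀, hr₀, hv⟩ := hw
  unfold GG
  rw [← finsum_comp_equiv (Equiv.addLeft (⟨r₀, hr₀⟩ : Qn val emb inf n))
    (f := fun r : Qn val emb inf n => h (z + emb inf (r : K)))]
  refine finsum_congr fun r => ?_
  have h1 : z + w + emb inf (r : K) =
      (z + emb inf ((Equiv.addLeft (⟨r₀, hr₀⟩ : Qn val emb inf n) r : Qn val emb inf n) : K)) +
        (w - emb inf r₀) := by
    simp only [Equiv.coe_addLeft, AddSubgroup.coe_add, map_add]
    ring
  rw [h1, hinv _ _ hv]


/-- The sum over `Qn` and over the finite quotient does not depend on the point. -/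
theorem sum_GG (n : P →₀ ℕ) [Fintype (L inf ⧸ Hn val emb inf n)] {h : L inf → ℂ}
    (hinv : ∀ z w, val inf w ≤ WithZero.exp (-(n inf : ℤ)) → h (z + w) = h z) (z : L inf) :
    ∑ q : L inf ⧸ Hn val emb inf n, GG val emb inf n h (z - q.out) =
      ∑ q : L inf ⧸ Hn val emb inf n, GG val emb inf n h q.out := by
  refine (Finset.sum_congr rfl fun q _ => ?_).trans
    (Equiv.sum_comp (Equiv.subLeft (QuotientAddGroup.mk z : L inf ⧸ Hn val emb inf n))
      fun q => GG val emb inf n h q.out)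
  obtain ⟨w, hw⟩ : ∃ w ∈ Hn val emb inf n, z - q.out =
      (Equiv.subLeft (QuotientAddGroup.mk z : L inf ⧸ Hn val emb inf n) q).out + w := by
    refine ⟨-(Equiv.subLeft (QuotientAddGroup.mk z : L inf ⧸ Hn val emb inf n) q).out +
      (z - q.out), ?_, by ring⟩
    rw [← QuotientAddGroup.eq]
    rw [QuotientAddGroup.out_eq']
    rw [Equiv.subLeft_apply, QuotientAddGroup.mk_sub, QuotientAddGroup.out_eq']
  rw [hw.2, GG_add n hinv hw.1]

theorem uL_mem {F : Type} [Field F] {v : Valuation F ℤᵐ⁰} {x : F} {k : ℕ}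
    (h : v x ≤ WithZero.exp (-(k : ℤ))) : uL x ∈ Cong v k := by
  intro i j
  rw [uL_inv]
  constructor
  · fin_cases i <;> fin_cases j <;> simp [uL] <;> simpa using h
  · fin_cases i <;> fin_cases j <;> simp [uL] <;> simpa using h

theorem uni_add (x w : Adele val) : uni val (x + w) = uni val x * uni val w := by
  apply Subtype.ext
  funext p
  exact uL_add _ _

theorem cj_mul (g h : GA val) (Y : ∀ p, M2 (L p)) : cj val (g * h) Y = cj val h (cj val g Y) := by
  funext p
  have h1 : (((g * h : GA val) : ∀ p, G2 (L p)) p) =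
    ((g : ∀ p, G2 (L p)) p) * ((h : ∀ p, G2 (L p)) p) := rfl
  unfold cj
  rw [h1, _root_.mul_inv_rev, Units.val_mul, Units.val_mul]
  simp only [Matrix.mul_assoc]

theorem uni_mem_U {n : P →₀ ℕ} {w : Adele val}
    (hw : ∀ p, val p ((w : ∀ p, L p) p) ≤ WithZero.exp (-(n p : ℤ))) : uni val w ∈ U val n :=
  fun p => uL_mem (hw p)

theorem U_mono {n n' : P →₀ ℕ} (h : ∀ p, n p ≤ n' p) {u : GA val} (hu : u ∈ U val n') :
    u ∈ U val n := by
  intro p i j
  have hle : (WithZero.exp (-(n' p : ℤ)) : ℤᵐ⁰) ≤ WithZero.exp (-(n p : ℤ)) := by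
    rw [WithZero.exp_le_exp]
    have := h p
    omega
  exact ⟨(hu p i j).1.trans hle, (hu p i j).2.trans hle⟩

/-- Conjugation by `(1 r; 0 1)`. -/
def cjr (τ ν : K) (r : K) (X : SX K τ ν) : SX K τ ν :=
  ⟨!![1, r; 0, 1] * X.1 * !![1, -r; 0, 1], by
    rw [Matrix.trace_mul_comm, ← Matrix.mul_assoc]
    have : (!![1, -r; 0, 1] : M2 K) * !![1, r; 0, 1] = 1 := by
      ext i j
      fin_cases i <;> fin_cases j <;> simp [Matrix.mul_apply, Fin.sum_univ_two]
    rw [this, Matrix.one_mul]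
    exact X.2.1, by
    rw [Matrix.det_mul, Matrix.det_mul, X.2.2]
    simp [Matrix.det_fin_two]⟩

theorem cjr_add (τ ν : K) (r s : K) (X : SX K τ ν) : cjr τ ν (r + s) X = cjr τ ν r (cjr τ ν s X) := by
  apply Subtype.ext
  show !![1, r + s; 0, 1] * X.1 * !![1, -(r + s); 0, 1] =
    !![1, r; 0, 1] * (!![1, s; 0, 1] * X.1 * !![1, -s; 0, 1]) * !![1, -r; 0, 1]
  have h1 : (!![1, r + s; 0, 1] : M2 K) = !![1, r; 0, 1] * !![1, s; 0, 1] := by
    ext i j
    fin_cases i <;> fin_cases j <;> simp [Matrix.mul_apply, Fin.sum_univ_two, add_comm]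
  have h2 : (!![1, -(r + s); 0, 1] : M2 K) = !![1, -s; 0, 1] * !![1, -r; 0, 1] := by
    ext i j
    fin_cases i <;> fin_cases j <;> simp [Matrix.mul_apply, Fin.sum_univ_two, add_comm]
  rw [h1, h2]
  simp only [Matrix.mul_assoc]

theorem cjr_zero (τ ν : K) (X : SX K τ ν) : cjr τ ν 0 X = X := by
  apply Subtype.ext
  show !![1, (0 : K); 0, 1] * X.1 * !![1, -0; 0, 1] = X.1
  have h1 : (!![1, 0; 0, 1] : M2 K) = 1 := by
    ext i j
    fin_cases i <;> fin_cases j <;> simp
  rw [neg_zero, h1, Matrix.one_mul, Matrix.mul_one]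

theorem cjr_00 (τ ν : K) (r : K) (X : SX K τ ν) :
    (cjr τ ν r X).1 0 0 = X.1 0 0 + r * X.1 1 0 := by
  show (!![1, r; 0, 1] * X.1 * !![1, -r; 0, 1]) 0 0 = _
  simp [Matrix.mul_apply, Fin.sum_univ_two, Matrix.vecMul, dotProduct]

theorem cjr_10 (τ ν : K) (r : K) (X : SX K τ ν) : (cjr τ ν r X).1 1 0 = X.1 1 0 := by
  show (!![1, r; 0, 1] * X.1 * !![1, -r; 0, 1]) 1 0 = _
  simp [Matrix.mul_apply, Fin.sum_univ_two, Matrix.vecMul, dotProduct]

/-- A Schwartz function is invariant under conjugation by `(1 r; 0 1)` for `r` in `Qn`. -/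
theorem Phi_cjr {Φ : (∀ p, M2 (L p)) → ℂ} {n : P →₀ ℕ}
    (h1 : ∀ u ∈ U val n, ∀ Y, Φ (cj val u Y) = Φ Y)
    (h3 : ∀ Y Y', (∀ p, p ≠ inf → Y p = Y' p) → Φ Y = Φ Y') {τ ν : K} {r : K}
    (hr : r ∈ Qn val emb inf n) (X : SX K τ ν) :
    Φ (fun p => atp emb p (cjr τ ν r X).1) = Φ (fun p => atp emb p X.1) := by
  classical
  have hm : ∀ p, (if p = inf then (1 : G2 (L p)) else uL (-(emb p r))) ∈ Cong (val p) (n p) := by
    intro p
    by_cases hp : p = inf
    · rw [if_pos hp]
      exact one_mem _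
    · rw [if_neg hp]
      refine uL_mem ?_
      rw [Valuation.map_neg]
      exact hr p hp
  let u : GA val := ⟨fun p => if p = inf then (1 : G2 (L p)) else uL (-(emb p r)), by
    show Set.Finite _
    convert Set.finite_empty
    ext p
    simp only [Set.mem_ofPred_eq, Set.mem_empty_iff_false, iff_false, not_not]
    intro i j
    have h := hm p i j
    have hle := exp_neg_le_one (n p)
    simp only [Nat.cast_zero, neg_zero, WithZero.exp_zero]
    exact ⟨h.1.trans hle, h.2.trans hle⟩⟩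
  have hu : u ∈ U val n := hm
  rw [← h1 u hu (fun p => atp emb p X.1)]
  apply h3
  intro p hp
  have h4 : ((u : ∀ p, G2 (L p)) p) = uL (-(emb p r)) := if_neg hp
  show atp emb p (cjr τ ν r X).1 = cj val u (fun p => atp emb p X.1) p
  unfold cj
  rw [h4, uL_inv, neg_neg]
  unfold atp
  have h5 : ((cjr τ ν r X).1.map (emb p)) =
      (!![1, r; 0, 1] : M2 K).map (emb p) * X.1.map (emb p) * (!![1, -r; 0, 1] : M2 K).map (emb p) := by
    show (!![1, r; 0, 1] * X.1 * !![1, -r; 0, 1]).map (emb p) = _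
    rw [Matrix.map_mul, Matrix.map_mul]
  rw [h5]
  congr 1
  · congr 1
    ext i j
    fin_cases i <;> fin_cases j <;> simp [uL]
  · ext i j
    fin_cases i <;> fin_cases j <;> simp [uL]

end glob

end Pool.Agent.U901.LLD
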