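import Pool.Agent.U283.LL.Spec

/-!
# Project LL: sums over free actions, and functions on the projective line of a local field
-/

set_option autoImplicit false

open scoped WithZero Matrix
open Matrix hiding vec

namespace Pool.Agent.U901.LLD

open Pool.Agent.U283.LL

/-- A finite sum over a set with a free action is zero if the sums over the orbits are zero. -/
theorem finsum_zero_of_orbits {Γ S : Type} [AddGroup Γ] (a : Γ → S → S)
    (hadd : ∀ γ δ s, a (γ + δ) s = a γ (a δ s)) (h0 : ∀ s, a 0 s = s)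
    (hfree : ∀ γ s, a γ s = s → γ = 0) (T : S → ℂ) (hfin : T.support.Finite)
    (hz : ∀ s, ∑ᶠ γ, T (a γ s) = 0) : ∑ᶠ s, T s = 0 := by
  classical
  let R : Setoid S :=
    { r := fun s s' => ∃ γ, a γ s = s'
      iseqv := ⟨fun s => ⟨0, h0 s⟩,
        fun {s s'} ⟨γ, h⟩ => ⟨-γ, by rw [← h, ← hadd, neg_add_cancel, h0]⟩,
        fun {s t u} ⟨γ, h⟩ ⟨δ, h'⟩ => ⟨δ + γ, by rw [hadd, h, h']⟩⟩ }
  let e : Quotient R × Γ → S := fun p => a p.2 p.1.out
  have hinj : Function.Injective e := by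
    rintro ⟨ω, γ⟩ ⟨ω', γ'⟩ h
    have h' : a γ ω.out = a γ' ω'.out := h
    have h1 : ω = ω' := by
      rw [← Quotient.out_eq ω, ← Quotient.out_eq ω']
      apply Quotient.sound
      exact ⟨-γ' + γ, by rw [hadd, h', ← hadd, neg_add_cancel, h0]⟩
    subst h1
    have h2 : a (-γ' + γ) ω.out = ω.out := by rw [hadd, h', ← hadd, neg_add_cancel, h0]
    have h3 := hfree _ _ h2
    have h4 : γ = γ' := (neg_add_eq_zero.1 h3).symm
    rw [h4]
  have hsurj : Function.Surjective e := by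
    intro s
    have hs : R.r (Quotient.mk R s).out s := Quotient.mk_out (s := R) s
    obtain ⟨γ, hγ⟩ := hs
    exact ⟨(Quotient.mk R s, γ), hγ⟩
  rw [← finsum_comp_equiv (Equiv.ofBijective e ⟨hinj, hsurj⟩)]
  rw [finsum_curry]
  · exact finsum_eq_zero_of_forall_eq_zero fun ω => hz ω.out
  · exact hfin.preimage hinj.injOn

/-! ### the value group -/

theorem exists_le_exp (x : ℤᵐ⁰) : ∃ k : ℕ, x ≤ WithZero.exp (k : ℤ) := by
  refine ⟨(WithZero.log x).toNat, WithZero.le_exp_of_log_le ?_⟩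
  exact Int.self_le_toNat _

theorem exp_neg_le_one (n : ℕ) : (WithZero.exp (-(n : ℤ)) : ℤᵐ⁰) ≤ 1 := by
  rw [← WithZero.exp_zero, WithZero.exp_le_exp]; omega

theorem one_le_exp (n : ℕ) : (1 : ℤᵐ⁰) ≤ WithZero.exp (n : ℤ) := by
  rw [← WithZero.exp_zero, WithZero.exp_le_exp]; omega

/-! ### local -/

section loc

variable {F : Type} [Field F] {v : Valuation F ℤᵐ⁰}

theorem PFm_mono {m m' : ℕ} (h : m ≤ m') {f : (Fin 2 → F) → ℂ} (hf : PFm v m f) : PFm v m' f := by
  refine ⟨hf.1, hf.2.1, fun x y hx hxy => hf.2.2 x y hx (hxy.trans ?_)⟩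
  refine mul_le_mul_left ?_ _
  rw [WithZero.exp_le_exp]; omega

/-- The function on the affine line, minus the value at infinity. -/
noncomputable def hh (f : (Fin 2 → F) → ℂ) (z : F) : ℂ := f (vec z 1) - f (vec 1 0)

theorem vec_ne_zero_left {z w : F} (h : z ≠ 0) : vec z w ≠ 0 := fun h0 => h (congrFun h0 0)

theorem vec_ne_zero_right {z w : F} (h : w ≠ 0) : vec z w ≠ 0 := fun h0 => h (congrFun h0 1)

omit [Field F] in
@[simp] theorem vec_zero' (z w : F) : vec z w 0 = z := rfl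
omit [Field F] in
@[simp] theorem vec_one' (z w : F) : vec z w 1 = w := rfl

theorem hh_add {m : ℕ} {f : (Fin 2 → F) → ℂ} (hf : PFm v m f) {z w : F}
    (hw : v w ≤ WithZero.exp (-(m : ℤ))) : hh f (z + w) = hh f z := by
  unfold hh
  congr 1
  refine hf.2.2 _ _ (vec_ne_zero_right one_ne_zero) ?_
  have h1 : nrm v (vec (z + w) 1 - vec z 1) = v w := by
    unfold nrm
    simp
  have h2 : 1 ≤ nrm v (vec z 1) := by
    unfold nrm
    simp
  rw [h1]
  calc v w ≤ WithZero.exp (-(m : ℤ)) * 1 := by rwa [mul_one]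
    _ ≤ _ := mul_le_mul_right h2 _

theorem hh_zero {m : ℕ} {f : (Fin 2 → F) → ℂ} (hf : PFm v m f) {z : F}
    (hz : WithZero.exp (m : ℤ) ≤ v z) : hh f z = 0 := by
  have hz0 : z ≠ 0 := by
    rintro rfl
    rw [map_zero] at hz
    exact absurd hz (not_le.2 WithZero.exp_pos)
  unfold hh
  rw [sub_eq_zero]
  have h1 : f (vec z 1) = f (vec 1 z⁻¹) := by
    rw [← hf.2.1 z (vec 1 z⁻¹) hz0]
    congr 1
    funext i
    fin_cases i <;> simp [vec, hz0]
  rw [h1]
  refine hf.2.2 _ _ (vec_ne_zero_left one_ne_zero) ?_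
  have h2 : nrm v (vec 1 z⁻¹ - vec 1 0) = (v z)⁻¹ := by
    unfold nrm
    simp
  have h3 : nrm v (vec 1 0) = 1 := by
    unfold nrm
    simp
  rw [h2, h3, mul_one, WithZero.exp_neg]
  exact inv_anti₀ WithZero.exp_pos hz

theorem uL_inv (x : F) : (uL x)⁻¹ = uL (-x) := by
  rw [inv_eq_iff_mul_eq_one]
  ext i j
  fin_cases i <;> fin_cases j <;> simp [uL, Matrix.mul_apply, Fin.sum_univ_two]

theorem uL_add (x y : F) : uL (x + y) = uL x * uL y := by
  ext i j
  fin_cases i <;> fin_cases j <;> simp [uL, Matrix.mul_apply, Fin.sum_univ_two, add_comm]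

theorem uL_zero : uL (0 : F) = 1 := by
  ext i j
  fin_cases i <;> fin_cases j <;> simp [uL]

theorem act_mul (g h : G2 F) (f : (Fin 2 → F) → ℂ) : act (g * h) f = act g (act h f) := by
  funext x
  unfold act
  rw [_root_.mul_inv_rev, Units.val_mul, Matrix.mulVec_mulVec]

theorem act_one (f : (Fin 2 → F) → ℂ) : act (1 : G2 F) f = f := by
  funext x
  unfold act
  simp

theorem act_uL_vec {f : (Fin 2 → F) → ℂ} (hom : ∀ (c : F) (x), c ≠ 0 → f (c • x) = f x)
    (y a c : F) (hc : c ≠ 0) : act (uL y) f (vec a c) = f (vec (a / c - y) 1) := by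
  unfold act
  rw [uL_inv, ← hom c (vec (a / c - y) 1) hc]
  congr 1
  funext i
  fin_cases i
  · simp [uL, vec, Matrix.mulVec, dotProduct, Fin.sum_univ_two]
    field_simp
    ring
  · simp [uL, vec, Matrix.mulVec, dotProduct, Fin.sum_univ_two]

theorem nrm_mulVec_le (A : M2 F) (x : Fin 2 → F) (C : ℤᵐ⁰) (hA : ∀ i j, v (A i j) ≤ C) :
    nrm v (A *ᵥ x) ≤ C * nrm v x := by
  have h : ∀ i, v ((A *ᵥ x) i) ≤ C * nrm v x := by
    intro i
    simp only [Matrix.mulVec, dotProduct, Fin.sum_univ_two]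
    refine v.map_add_le ?_ ?_
    · rw [map_mul]
      exact mul_le_mul' (hA i 0) (le_max_left _ _)
    · rw [map_mul]
      exact mul_le_mul' (hA i 1) (le_max_right _ _)
  exact max_le (h 0) (h 1)

theorem exists_bound (A : M2 F) : ∃ k : ℕ, ∀ i j, v (A i j) ≤ WithZero.exp (k : ℤ) := by
  choose k hk using fun p : Fin 2 × Fin 2 => exists_le_exp (v (A p.1 p.2))
  refine ⟨∑ p, k p, fun i j => (hk (i, j)).trans ?_⟩
  rw [WithZero.exp_le_exp]
  exact_mod_cast Finset.single_le_sum (f := k) (fun _ _ => Nat.zero_le _) (Finset.mem_univ (i, j))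

/-- The group acts on the locally constant functions. -/
theorem PF_act (g : G2 F) {f : (Fin 2 → F) → ℂ} (hf : PF v f) : PF v (act g f) := by
  obtain ⟨m, hf⟩ := hf
  obtain ⟨k, hk⟩ := exists_bound (v := v) (g : M2 F)
  obtain ⟨l, hl⟩ := exists_bound (v := v) ((g⁻¹ : G2 F) : M2 F)
  refine ⟨m + k + l, ?_, ?_, ?_⟩
  · unfold act
    rw [Matrix.mulVec_zero]
    exact hf.1
  · intro c x hc
    unfold act
    rw [Matrix.mulVec_smul]
    exact hf.2.1 _ _ hc
  · intro x y hx hxy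
    unfold act
    refine hf.2.2 _ _ ?_ ?_
    · intro h0
      apply hx
      have : (g : M2 F) *ᵥ (((g⁻¹ : G2 F) : M2 F) *ᵥ x) = x := by
        rw [Matrix.mulVec_mulVec]
        simp
      rw [← this, h0, Matrix.mulVec_zero]
    · rw [← Matrix.mulVec_sub]
      have h1 := nrm_mulVec_le (v := v) ((g⁻¹ : G2 F) : M2 F) (y - x) _ hl
      have h2 : nrm v x ≤ WithZero.exp (k : ℤ) * nrm v (((g⁻¹ : G2 F) : M2 F) *ᵥ x) := by
        have h3 := nrm_mulVec_le (v := v) (g : M2 F) (((g⁻¹ : G2 F) : M2 F) *ᵥ x) _ hk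
        rw [Matrix.mulVec_mulVec] at h3
        simpa using h3
      refine h1.trans ?_
      calc WithZero.exp (l : ℤ) * nrm v (y - x)
          ≤ WithZero.exp (l : ℤ) * (WithZero.exp (-((m + k + l : ℕ) : ℤ)) *
            (WithZero.exp (k : ℤ) * nrm v (((g⁻¹ : G2 F) : M2 F) *ᵥ x))) :=
            mul_le_mul_right (hxy.trans (mul_le_mul_right h2 _)) _
        _ = WithZero.exp (-(m : ℤ)) * nrm v (((g⁻¹ : G2 F) : M2 F) *ᵥ x) := by
            rw [← mul_assoc, ← mul_assoc, ← WithZero.exp_add, ← WithZero.exp_add]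
            congr 2
            push_cast
            ring

/-- A unipotent matrix close to one does not change a function. -/
theorem act_uL_small {m : ℕ} {f : (Fin 2 → F) → ℂ} (hf : PFm v m f) {w : F}
    (hw : v w ≤ WithZero.exp (-(m : ℤ))) : act (uL w) f = f := by
  funext x
  unfold act
  rw [uL_inv]
  by_cases hx : x = 0
  · rw [hx, Matrix.mulVec_zero]
  · refine hf.2.2 _ _ hx ?_
    have h1 : ((uL (-w) : G2 F) : M2 F) *ᵥ x - x = vec (-w * x 1) 0 := by
      funext i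
      fin_cases i <;> simp [uL, vec, Matrix.mulVec, dotProduct, Fin.sum_univ_two]
    rw [h1]
    have h2 : nrm v (vec (-w * x 1) 0) = v w * v (x 1) := by
      unfold nrm
      simp
    rw [h2]
    exact mul_le_mul' hw (le_max_right _ _)

theorem ev_eq {β : F} {Y : M2 F} (h : Y 1 0 ≠ 0) : ev β Y = vec (Y 0 0 - β) (Y 1 0) := by
  unfold ev
  rw [if_pos ⟨1, by simpa using h⟩]
  funext i
  fin_cases i <;> simp [vec]

end loc

end Pool.Agent.U901.LLD
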